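import Pool.Agent.MWGN.StmtsC

/-!
# MWGN, row INP: insertion of words and prefixes
-/

set_option autoImplicit false

namespace Pool.Agent.MWGN.H51

open Pool.Agent.Helper14_MV Pool.Agent.Helper2_MV
open Pool.Agent.MWK (pre)

theorem preS (w : List ℕ) (y : ℕ) : pre (y :: w) y = [] := by simp [pre]

theorem preN {c y : ℕ} (h : c ≠ y) (w : List ℕ) : pre (c :: w) y = c :: pre w y := by
  simp [pre, h]

theorem preA {q : ℕ} : ∀ {E : List ℕ}, q ∉ E → ∀ w : List ℕ, pre (E ++ w) q = E ++ pre w q
  | [], _, w => rfl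
  | a :: E, h, w => by
    rw [List.mem_cons, not_or] at h
    rw [List.cons_append, preN (fun e => h.1 e.symm), preA h.2 w, List.cons_append]

/-- the first three parts -/
theorem part1 {E M N : List ℕ} {k : ℕ} (h : Ins E M N k) :
    (∀ c, N.count c = M.count c + k * E.count c) ∧ (∀ q, q ∉ E → (q ∈ N ↔ q ∈ M)) ∧
    (∀ q, q ∉ E → ∃ k' ≤ k, (q ∉ M → k' = k) ∧
      ∀ c, (pre N q).count c = (pre M q).count c + k' * E.count c) := by
  induction h with
  | nil =>
    refine ⟨fun c => by simp, fun q _ => Iff.rfl, fun q _ => ⟨0, le_refl _, fun _ => rfl, fun c => by simp⟩⟩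
  | @cons a M N k h ih =>
    obtain ⟨h1, h2, h3⟩ := ih
    refine ⟨fun c => ?_, fun q hq => ?_, fun q hq => ?_⟩
    · rw [List.count_cons, List.count_cons, h1 c]
      omega
    · rw [List.mem_cons, List.mem_cons, h2 q hq]
    · by_cases hc : a = q
      · subst hc
        refine ⟨0, Nat.zero_le _, fun h => absurd List.mem_cons_self h, fun c => ?_⟩
        rw [preS, preS]
        simp
      · obtain ⟨k', hk, hk2, hk3⟩ := h3 q hq
        refine ⟨k', hk, fun h => hk2 (fun h' => h (List.mem_cons_of_mem _ h')), fun c => ?_⟩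
        rw [preN hc, preN hc, List.count_cons, List.count_cons, hk3 c]
        omega
  | @ins M N k h ih =>
    obtain ⟨h1, h2, h3⟩ := ih
    refine ⟨fun c => ?_, fun q hq => ?_, fun q hq => ?_⟩
    · rw [List.count_append, h1 c, Nat.add_mul, Nat.one_mul]
      omega
    · rw [List.mem_append, ← h2 q hq]
      exact ⟨fun h => h.resolve_left hq, Or.inr⟩
    · obtain ⟨k', hk, hk2, hk3⟩ := h3 q hq
      refine ⟨k' + 1, by omega, fun h => by rw [hk2 h], fun c => ?_⟩
      rw [preA hq, List.count_append, hk3 c, Nat.add_mul, Nat.one_mul]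
      omega

/-- the monotone part -/
theorem part2 {E M N : List ℕ} {k : ℕ} (h : Ins E M N k) :
    ∀ q q', q ∉ E → q' ∉ E → q ∈ pre M q' → ∃ k₁ k₂, k₁ ≤ k₂ ∧
      (∀ c, (pre N q).count c = (pre M q).count c + k₁ * E.count c) ∧
      (∀ c, (pre N q').count c = (pre M q').count c + k₂ * E.count c) := by
  induction h with
  | nil =>
    intro q q' _ _ h
    exact absurd h List.not_mem_nil
  | @cons a M N k h ih =>
    intro q q' hq hq' hm
    by_cases hc : a = q'
    · subst hc
      rw [preS] at hm
      exact absurd hm List.not_mem_nil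
    · rw [preN hc] at hm
      by_cases hd : a = q
      · subst hd
        obtain ⟨k', hk, hk2, hk3⟩ := (part1 h).2.2 q' hq'
        refine ⟨0, k', Nat.zero_le _, fun c => ?_, fun c => ?_⟩
        · rw [preS, preS]
          simp
        · rw [preN hc, preN hc, List.count_cons, List.count_cons, hk3 c]
          omega
      · rcases List.mem_cons.1 hm with h' | h'
        · exact absurd h'.symm hd
        · obtain ⟨k₁, k₂, hk, h1, h2⟩ := ih q q' hq hq' h'
          refine ⟨k₁, k₂, hk, fun c => ?_, fun c => ?_⟩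
          · rw [preN hd, preN hd, List.count_cons, List.count_cons, h1 c]
            omega
          · rw [preN hc, preN hc, List.count_cons, List.count_cons, h2 c]
            omega
  | @ins M N k h ih =>
    intro q q' hq hq' hm
    obtain ⟨k₁, k₂, hk, h1, h2⟩ := ih q q' hq hq' hm
    refine ⟨k₁ + 1, k₂ + 1, by omega, fun c => ?_, fun c => ?_⟩
    · rw [preA hq, List.count_append, h1 c, Nat.add_mul, Nat.one_mul]
      omega
    · rw [preA hq', List.count_append, h2 c, Nat.add_mul, Nat.one_mul]
      omega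

/-- **INP**. -/
theorem inp : InpStmt := fun _ _ _ _ h =>
  ⟨(part1 h).1, (part1 h).2.1, (part1 h).2.2, part2 h⟩

end Pool.Agent.MWGN.H51
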